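import Pool.Agent.Helper82.MonoExample

/-!
# The least dimension of a monostatic simplex of uniform density is ten

`Monostatic` and `FacetStable` are defined in `Pool/Agent/Helper82/MonoDefs.lean`.
-/

namespace Pool.Agent.Results.MP_93bd63_co.LeastMonostatic

open Pool.Agent.Helper82.Mono

/-- For `n ≥ 2`, there is a monostatic `n`-simplex of uniform density in `ℝⁿ` if and only if
`n ≥ 10`. In particular the least dimension of a monostatic simplex is exactly `10`. -/
theorem result (n : ℕ) [NeZero n] (_hn : 2 ≤ n) :
    (∃ S : Affine.Simplex ℝ (EuclideanSpace ℝ (Fin n)) n, Monostatic S) ↔ 10 ≤ n := by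
  constructor
  · rintro ⟨S, hS⟩
    by_contra hcon
    exact not_monostatic (by omega) S hS
  · intro h
    exact exists_monostatic h

end Pool.Agent.Results.MP_93bd63_co.LeastMonostatic
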